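import Mathlib
import Pool.Agent.H51K.UMain
import Pool.Agent.H51K.Kaz
import Pool.Agent.H51K.AsmFinal
import Pool.Agent.H51K.DecB
import Pool.Agent.H51K.Flat

set_option autoImplicit false

open Filter Topology
open Pool.Agent.H51K Pool.Agent.H51K.U

namespace Pool.Agent.Results.MP_e86729_an.KazhdanCentralizers

/-- Affirmative answer to Q1: for every Kazhdan group `G`, finite symmetric generating set `S`,
free ultrafilter `𝒰`, positive integers `d_n` and homomorphism `π` from `G` to the unitary group of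
`∏_𝒰 M_{d_n}(ℂ)` there are positive integers `m_n` with `lim_𝒰 m_n / d_n = 1` and sequences of
unitaries `(g_{s,n})_n`, `s ∈ S`, in `M_{m_n}(ℂ)` lifting `π(s)` such that the relative commutant of
`π(G)` in `∏_𝒰 M_{m_n}(ℂ)` is the ultraproduct of the centralizers of `{g_{s,n} : s ∈ S}`. -/
theorem result (G : Type) [Group G] (hT : PropertyT G)
    (S : Finset G) (_hsymm : ∀ s ∈ S, s⁻¹ ∈ S) (hgen : Subgroup.closure (S : Set G) = ⊤)
    (𝒰 : Ultrafilter ℕ) (hfree : (𝒰 : Filter ℕ) ≤ Filter.cofinite)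
    (d : ℕ → ℕ) (hd : ∀ n, 0 < d n) (π : UHom G 𝒰 d) :
    ∃ (m : ℕ → ℕ) (hm : Tendsto (fun n => (m n : ℝ) / (d n : ℝ)) 𝒰 (𝓝 1)) (g : S → Bdd m),
      (∀ n, 0 < m n) ∧
      (∀ s n, (g s).at n ∈ Matrix.unitaryGroup (Fin (m n)) ℂ) ∧
      (∀ s : S, cls 𝒰 (g s) = idf hm (π.val s)) ∧
      {x : Ultra 𝒰 m | ∀ a : G, x * idf hm (π.val a) = idf hm (π.val a) * x} =
        cls 𝒰 '' {y : Bdd m | ∀ n, ∀ s : S, y.at n * (g s).at n = (g s).at n * y.at n} :=
  main (coreTheorem_of (decTheorem flatTheorem overlapTheorem') assembleTheorem) kazTheorem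
    G hT S hgen 𝒰 hfree d hd π

end Pool.Agent.Results.MP_e86729_an.KazhdanCentralizers
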